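import Pool.Agent.H95.CG.Targets
import Pool.Agent.H16.HK.PO
import Pool.Agent.H16.HK.PS
import Pool.Agent.H3.HK.GA

/-! The theta identity for positive definite matrices of determinant one (module TF). -/

set_option autoImplicit false

namespace Pool.Agent.H56.CG

open Pool.Agent.H95.CG Pool.Agent.H25.HK

theorem qf_smul' {ι : Type} [Fintype ι] (S : Matrix ι ι ℝ) (t : ℝ) (x : ι → ℝ) :
    qf (t • S) x = t * qf S x := by
  unfold qf
  rw [Finset.mul_sum]
  refine Finset.sum_congr rfl fun i _ => ?_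
  rw [Finset.mul_sum]
  refine Finset.sum_congr rfl fun j _ => ?_
  rw [Matrix.smul_apply, smul_eq_mul]
  ring

theorem posDef_smul {ι : Type} [Fintype ι] [DecidableEq ι] {S : Matrix ι ι ℝ} (hS : S.PosDef)
    {t : ℝ} (ht : 0 < t) : (t • S).PosDef := hS.smul ht

theorem pf_tf : T_TF := by
  intro ι _ _ S hS hdet
  have hPO : T_PO := Pool.Agent.H16.HK.po Pool.Agent.H16.HK.ps Pool.Agent.H3.HK.ga
    Pool.Agent.H16.HK.gs
  have hu : IsUnit S.det := by rw [hdet]; exact isUnit_one
  refine ⟨hS.inv, ?_, Matrix.nonsing_inv_nonsing_inv S hu, ?_⟩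
  · rw [Matrix.det_nonsing_inv, hdet, Ring.inverse_one]
  · intro t ht
    have h1 := hPO ι (t • S) (posDef_smul hS ht)
    have h2 : ∀ m : ι → ℤ, Real.exp (-Real.pi * qf (t • S) (fun i => (m i : ℝ))) =
        Real.exp (-Real.pi * (t * qz S m)) := by
      intro m
      rw [qf_smul']
      rfl
    have h3 : (t • S)⁻¹ = t⁻¹ • S⁻¹ := by
      have : Invertible t := invertibleOfNonzero ht.ne'
      rw [Matrix.inv_smul S t hu, invOf_eq_inv]
    have h4 : ∀ m : ι → ℤ, Real.exp (-Real.pi * qf (t • S)⁻¹ (fun i => (m i : ℝ))) =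
        Real.exp (-Real.pi * (t⁻¹ * qz S⁻¹ m)) := by
      intro m
      rw [h3, qf_smul']
      rfl
    simp only [h2, h4] at h1
    refine ⟨h1.1, ?_⟩
    unfold ts
    rw [h1.2]
    congr 1
    rw [Matrix.det_smul, hdet, mul_one, Real.sqrt_eq_rpow, ← Real.rpow_natCast, ← Real.rpow_mul ht.le,
      ← Real.rpow_neg ht.le]
    congr 1
    ring

end Pool.Agent.H56.CG
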